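import Mathlib
import Pool.Agent.H15.G.R_seed8.H350R3.GR.Base

set_option autoImplicit false

/-!
# The Euclidean subdivision of a rectangle and families of fat points
-/

namespace Pool.Agent.H350R3.GR

open Polynomial Pool.Agent.H932R2 Pool.Agent.H932R3

/-- `Mult A B L`: the Euclidean algorithm cuts a rectangle with sides `A` and `B` into squares
whose sides are the entries of `L`, each step cutting off a square at a shorter side. -/
inductive Mult : ℕ → ℕ → List ℕ → Prop
  | left (A : ℕ) : Mult A 0 []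
  | right (B : ℕ) : Mult 0 B []
  | big (A B : ℕ) (L : List ℕ) : 0 < B → B ≤ A → Mult (A - B) B L → Mult A B (B :: L)
  | small (A B : ℕ) (L : List ℕ) : 0 < A → A ≤ B → Mult A (B - A) L → Mult A B (A :: L)

theorem Mult.exists (A B : ℕ) : ∃ L, Mult A B L := by
  obtain ⟨n, hn⟩ : ∃ n, A + B ≤ n := ⟨_, le_rfl⟩
  induction n generalizing A B with
  | zero =>
    have h0 : B = 0 := by omega
    subst h0
    exact ⟨[], Mult.left A⟩
  | succ n ih =>
    rcases Nat.eq_zero_or_pos B with hB | hB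
    · subst hB
      exact ⟨[], Mult.left A⟩
    rcases Nat.eq_zero_or_pos A with hA | hA
    · subst hA
      exact ⟨[], Mult.right B⟩
    rcases le_total B A with h | h
    · obtain ⟨L, hL⟩ := ih (A - B) B (by omega)
      exact ⟨B :: L, Mult.big A B L hB h hL⟩
    · obtain ⟨L, hL⟩ := ih A (B - A) (by omega)
      exact ⟨A :: L, Mult.small A B L hA h hL⟩

theorem Mult.sum_sq {A B : ℕ} {L : List ℕ} (h : Mult A B L) :
    (L.map fun m => m ^ 2).sum = A * B := by
  induction h with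
  | left A => simp
  | right B => simp
  | big A B L _ h _ ih =>
    rw [List.map_cons, List.sum_cons, ih]
    obtain ⟨c, rfl⟩ := Nat.exists_eq_add_of_le h
    rw [Nat.add_sub_cancel_left]
    ring
  | small A B L _ h _ ih =>
    rw [List.map_cons, List.sum_cons, ih]
    obtain ⟨c, rfl⟩ := Nat.exists_eq_add_of_le h
    rw [Nat.add_sub_cancel_left]
    ring

theorem Mult.scale {A B : ℕ} {L : List ℕ} (h : Mult A B L) {k : ℕ} (hk : 0 < k) :
    Mult (k * A) (k * B) (L.map fun m => k * m) := by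
  induction h with
  | left A => exact Mult.left _
  | right B => exact Mult.right _
  | big A B L hB h _ ih =>
    rw [List.map_cons]
    refine Mult.big _ _ _ (Nat.mul_pos hk hB) (Nat.mul_le_mul_left k h) ?_
    rw [← Nat.mul_sub]
    exact ih
  | small A B L hA h _ ih =>
    rw [List.map_cons]
    refine Mult.small _ _ _ (Nat.mul_pos hk hA) (Nat.mul_le_mul_left k h) ?_
    rw [← Nat.mul_sub]
    exact ih

variable {K : Type*} [Field K]

theorem aff_add (p1 q1 r1 p2 q2 r2 : ℤ) (u : ℕ × ℕ) :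
    aff (p1 + p2) (q1 + q2) (r1 + r2) u = aff p1 q1 r1 u + aff p2 q2 r2 u := by
  unfold aff
  ring

theorem aff_sub (p1 q1 r1 c : ℤ) (u : ℕ × ℕ) : aff p1 q1 (r1 - c) u = aff p1 q1 r1 u - c := by
  unfold aff
  ring

/-- The step of the Euclidean subdivision. -/
theorem step [CharZero K] {w : ℕ} {L : List ℕ} {p1 q1 r1 p2 q2 r2 : ℤ}
    (hdet : p1 * q2 - p2 * q1 ≠ 0) {M : Finset (ℕ × ℕ)}
    (h1 : ∀ u ∈ M, 0 ≤ aff p1 q1 r1 u) (h2 : ∀ u ∈ M, 0 ≤ aff p2 q2 r2 u)
    (h3 : ∃ J, PtI (K := K) L J ∧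
      Indep J {u ∈ M | (w : ℤ) ≤ aff p1 q1 r1 u + aff p2 q2 r2 u}) :
    ∃ J, PtI (K := K) (w :: L) J ∧ Indep J M := by
  classical
  obtain ⟨J, hJ, hI⟩ := h3
  have hb : Indep (ptI (1 : K) 1 w) {u ∈ M | aff p1 q1 r1 u + aff p2 q2 r2 u < w} :=
    base_tri hdet (fun u hu => h1 u (Finset.mem_filter.1 hu).1)
      (fun u hu => h2 u (Finset.mem_filter.1 hu).1) fun u hu => (Finset.mem_filter.1 hu).2
  obtain ⟨s, _, hs⟩ := cut (p1 + p2) (q1 + q2) (w - (r1 + r2))
    (M1 := {u ∈ M | aff p1 q1 r1 u + aff p2 q2 r2 u < w})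
    (M2 := {u ∈ M | (w : ℤ) ≤ aff p1 q1 r1 u + aff p2 q2 r2 u})
    (fun u hu => by
      have := (Finset.mem_filter.1 hu).2
      unfold aff at this
      linarith) (fun u hu => by
      have := (Finset.mem_filter.1 hu).2
      unfold aff at this
      linarith) hb hI
  obtain ⟨J', hJ', hle⟩ := hJ.scl (s ^ (-(p1 + p2))) (s ^ (-(q1 + q2)))
  refine ⟨_, PtI.cons w L J' 1 1 hJ', ?_⟩
  refine (hs.mono ?_).anti (inf_le_inf le_rfl hle)
  intro u hu
  rw [Finset.mem_union, Finset.mem_filter, Finset.mem_filter]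
  rcases lt_or_ge (aff p1 q1 r1 u + aff p2 q2 r2 u) (w : ℤ) with h | h
  · exact Or.inl ⟨hu, h⟩
  · exact Or.inr ⟨hu, h⟩

/-- **Monomials in a lattice triangle with sides `A` and `B` are independent modulo a suitable
family of fat points with the multiplicities of the Euclidean subdivision.** -/
theorem Mult.indep [CharZero K] {A B : ℕ} {L : List ℕ} (h : Mult A B L) :
    ∀ {p1 q1 r1 p2 q2 r2 : ℤ}, p1 * q2 - p2 * q1 ≠ 0 → ∀ {M : Finset (ℕ × ℕ)},
      (∀ u ∈ M, 0 ≤ aff p1 q1 r1 u) → (∀ u ∈ M, 0 ≤ aff p2 q2 r2 u) →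
      (∀ u ∈ M, aff p1 q1 r1 u * B + aff p2 q2 r2 u * A < A * B) →
      ∃ J, PtI (K := K) L J ∧ Indep J M := by
  induction h with
  | left A =>
    intro p1 q1 r1 p2 q2 r2 _ M _ h2 h3
    refine ⟨⊤, PtI.nil, fun c _ u hu => ?_⟩
    have h4 := h2 u hu
    have h5 := h3 u hu
    have h6 : (0 : ℤ) ≤ aff p2 q2 r2 u * A := by positivity
    push_cast at h5
    linarith
  | right B =>
    intro p1 q1 r1 p2 q2 r2 _ M h1 _ h3
    refine ⟨⊤, PtI.nil, fun c _ u hu => ?_⟩
    have h4 := h1 u hu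
    have h5 := h3 u hu
    have h6 : (0 : ℤ) ≤ aff p1 q1 r1 u * B := by positivity
    push_cast at h5
    linarith
  | big A B L _ h _ ih =>
    intro p1 q1 r1 p2 q2 r2 hdet M h1 h2 h3
    refine step hdet h1 h2 ?_
    refine ih (p1 := p1 + p2) (q1 := q1 + q2) (r1 := r1 + r2 - B) (p2 := p2) (q2 := q2) (r2 := r2)
      ?_ ?_ ?_ ?_
    · have : (p1 + p2) * q2 - p2 * (q1 + q2) = p1 * q2 - p2 * q1 := by ring
      rwa [this]
    · intro u hu
      rw [aff_sub, aff_add]
      have := (Finset.mem_filter.1 hu).2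
      linarith
    · intro u hu
      exact h2 u (Finset.mem_filter.1 hu).1
    · intro u hu
      rw [aff_sub, aff_add]
      have := h3 u (Finset.mem_filter.1 hu).1
      rw [Nat.cast_sub h]
      nlinarith
  | small A B L _ h _ ih =>
    intro p1 q1 r1 p2 q2 r2 hdet M h1 h2 h3
    refine step hdet h1 h2 ?_
    refine ih (p1 := p1) (q1 := q1) (r1 := r1) (p2 := p1 + p2) (q2 := q1 + q2) (r2 := r1 + r2 - A)
      ?_ ?_ ?_ ?_
    · have : p1 * (q1 + q2) - (p1 + p2) * q1 = p1 * q2 - p2 * q1 := by ring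
      rwa [this]
    · intro u hu
      exact h1 u (Finset.mem_filter.1 hu).1
    · intro u hu
      rw [aff_sub, aff_add]
      have := (Finset.mem_filter.1 hu).2
      linarith
    · intro u hu
      rw [aff_sub, aff_add]
      have := h3 u (Finset.mem_filter.1 hu).1
      rw [Nat.cast_sub h]
      nlinarith

end Pool.Agent.H350R3.GR
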